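import Mathlib
import Pool.Agent.V11259.CeFin

/-!
A variety with two unary operations and two laws: its one-generated c.e. algebras fail the
ascending chain condition, but their isomorphism relation is not `Σ⁰₃`-complete.
-/

set_option autoImplicit false

open Encodable Denumerable
open V11259.RE V11259.CeAlg V11259.CeRel

namespace Pool.Agent.Results.MP_aec1d5_lc.TwoUnary

/-- `r` is a congruence of the algebra `A`. -/
def IsCongr {σ : Signature} (A : Alg σ) (r : Setoid A.carrier) : Prop :=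
  ∀ (f : ℕ) (hf : f ∈ σ.sym) (a b : Fin (σ.ar f) → A.carrier),
    (∀ i, r (a i) (b i)) → r (A.op f hf a) (A.op f hf b)

/-- The ascending chain condition on the congruence lattice of `A`. -/
def ACC {σ : Signature} (A : Alg σ) : Prop :=
  ∀ r : ℕ → Setoid A.carrier, (∀ n, IsCongr A (r n)) → Monotone r →
    ∃ N, ∀ n, N ≤ n → r n = r N

/-- The class `V_n` satisfies ACC. -/
def ClassACC (V : Variety) (n : ℕ) : Prop := ∀ e, ACC (alg V n e)

/-- The set of (codes of) laws of `V` is c.e. -/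
def CELaws (V : Variety) : Prop :=
  REPred fun m : ℕ => ∃ l ∈ V.laws, m = Nat.pair (l.1.code fun i => i) (l.2.code fun i => i)

theorem dec_two : ComputablePred fun f : ℕ => f ∈ ({f | f < 2} : Set ℕ) := by
  have h : PrimrecPred fun x : ℕ => x < 2 := Primrec.nat_lt.comp Primrec.id (Primrec.const 2)
  exact h.computablePred

/-- the signature with two unary operations `0` and `1` -/
def sg : Signature where
  sym := {f | f < 2}
  decidable_sym := dec_two
  ar _ := 1
  computable_ar := Computable.const 1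

/-- the operation `s` -/
def opS {X : Type} (t : Term sg X) : Term sg X :=
  Term.app (σ := sg) 0 (show (0 : ℕ) < 2 by norm_num) (fun _ => t)

/-- the operation `t` -/
def opT {X : Type} (t : Term sg X) : Term sg X :=
  Term.app (σ := sg) 1 (show (1 : ℕ) < 2 by norm_num) (fun _ => t)

/-- the variety with the laws `s (t y) = t y` and `t (t y) = t y` -/
abbrev VT : Variety where
  sig := sg
  laws := {(opS (opT (.var 0)), opT (.var 0)), (opT (opT (.var 0)), opT (.var 0))}

theorem term_ind {X : Type} {p : Term sg X → Prop} (h1 : ∀ x, p (.var x))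
    (h2 : ∀ t, p t → p (opS t)) (h3 : ∀ t, p t → p (opT t)) (t : Term sg X) : p t := by
  induction t with
  | var x => exact h1 x
  | app f hf ts ih =>
    have hf' : f < 2 := hf
    have e1 : ts = fun _ => ts (0 : Fin 1) := by
      funext i
      have : i = (0 : Fin 1) := Subsingleton.elim (α := Fin 1) _ _
      rw [this]
    interval_cases f
    · have := h2 (ts (0 : Fin 1)) (ih (0 : Fin 1))
      rw [e1]
      exact this
    · have := h3 (ts (0 : Fin 1)) (ih (0 : Fin 1))
      rw [e1]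
      exact this

/-- the terms in one generator -/
abbrev T := Term sg (Fin 1)

/-- the generator -/
abbrev x : T := .var 0

/-- code of `f(t)` from the code of `t` -/
def cs (f a : ℕ) : ℕ := 2 * Nat.pair f (encode [a]) + 1

theorem cs_inj {f g a b : ℕ} (h : cs f a = cs g b) : f = g ∧ a = b := by
  unfold cs at h
  have h1 : Nat.pair f (encode [a]) = Nat.pair g (encode [b]) := by omega
  obtain ⟨h2, h3⟩ := Nat.pair_eq_pair.1 h1
  have h4 := encode_injective h3
  simp only [List.cons.injEq, and_true] at h4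
  exact ⟨h2, h4⟩

theorem cs_prim : Primrec₂ cs := by
  unfold cs
  have h1 : Primrec fun q : ℕ × ℕ => (encode [q.2] : ℕ) :=
    Primrec.encode.comp (Primrec.list_cons.comp Primrec.snd (Primrec.const []))
  exact Primrec.succ.comp (Primrec.nat_mul.comp (Primrec.const 2)
    (Primrec₂.natPair.comp Primrec.fst h1))

theorem cd_x : cd x = 0 := rfl

theorem cd_S (t : T) : cd (opS t : T) = cs 0 (cd t) := rfl

theorem cd_T (t : T) : cd (opT t : T) = cs 1 (cd t) := rfl

theorem var_eq (i : Fin 1) : (.var i : T) = x := by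
  rw [Subsingleton.elim i 0]

theorem cases3 (t : T) : t = x ∨ (∃ u : T, t = opS u) ∨ ∃ u : T, t = opT u := by
  refine term_ind (p := fun t : T => t = x ∨ (∃ u : T, t = opS u) ∨ ∃ u : T, t = opT u)
    ?_ ?_ ?_ t
  · intro i; left; exact var_eq i
  · intro u _; right; left; exact ⟨u, rfl⟩
  · intro u _; right; right; exact ⟨u, rfl⟩

theorem cd_inj2 : ∀ s t : T, cd s = cd t → s = t := by
  intro s
  refine term_ind (p := fun s : T => ∀ t : T, cd s = cd t → s = t) ?_ ?_ ?_ s
  · intro i t h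
    rw [var_eq i] at h ⊢
    rcases cases3 t with rfl | ⟨u, rfl⟩ | ⟨u, rfl⟩
    · rfl
    · rw [cd_x, cd_S] at h; unfold cs at h; omega
    · rw [cd_x, cd_T] at h; unfold cs at h; omega
  · intro s ih t h
    have h : cs 0 (cd s) = cd t := h
    rcases cases3 t with rfl | ⟨u, rfl⟩ | ⟨u, rfl⟩
    · rw [cd_x] at h; unfold cs at h; omega
    · rw [cd_S] at h; rw [ih u (cs_inj h).2]
    · rw [cd_T] at h; have := (cs_inj h).1; omega
  · intro s ih t h
    have h : cs 1 (cd s) = cd t := h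
    rcases cases3 t with rfl | ⟨u, rfl⟩ | ⟨u, rfl⟩
    · rw [cd_x] at h; unfold cs at h; omega
    · rw [cd_S] at h; have := (cs_inj h).1; omega
    · rw [cd_T] at h; rw [ih u (cs_inj h).2]

/-- the congruence of the presentation `e` -/
abbrev θ (e : ℕ) (s t : T) : Prop := Cong VT (relOf (W e)) s t

theorem θrefl (e : ℕ) (t : T) : θ e t t := Cong.refl (V := VT) t

theorem θS {e : ℕ} {s t : T} (h : θ e s t) : θ e (opS s : T) (opS t : T) :=
  Cong.app (V := VT) 0 (show (0 : ℕ) < 2 by norm_num) fun _ => h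

theorem θT {e : ℕ} {s t : T} (h : θ e s t) : θ e (opT s : T) (opT t : T) :=
  Cong.app (V := VT) 1 (show (1 : ℕ) < 2 by norm_num) fun _ => h

theorem θST (e : ℕ) (s : T) : θ e (opS (opT s) : T) (opT s : T) :=
  Cong.law (V := VT) (R := relOf (W e)) (l := (opS (opT (.var 0)), opT (.var 0)))
    (Or.inl rfl) fun _ => s

theorem θTT (e : ℕ) (s : T) : θ e (opT (opT s) : T) (opT s : T) :=
  Cong.law (V := VT) (R := relOf (W e)) (l := (opT (opT (.var 0)), opT (.var 0)))
    (Or.inr rfl) fun _ => s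

/-! ### The congruence is c.e. -/

/-- rules deriving the congruence on codes -/
def rule (q : ℕ × (List (ℕ × ℕ) × (ℕ × ℕ))) : Prop :=
  (q.2.2.1 = 0 ∧ q.2.2.2 = 0) ∨
  ((∃ m : ℕ, m.unpair.1 < 2 ∧ q.2.2.1 = cs m.unpair.1 m.unpair.2.unpair.1 ∧
    q.2.2.2 = cs m.unpair.1 m.unpair.2.unpair.2 ∧ (m.unpair.2.unpair.1, m.unpair.2.unpair.2) ∈ q.2.1) ∨
  ((∃ m : ℕ, (m.unpair.1 < 2 ∧ (m.unpair.2, m.unpair.2) ∈ q.2.1) ∧
    q.2.2.1 = cs m.unpair.1 (cs 1 m.unpair.2) ∧ q.2.2.2 = cs 1 m.unpair.2) ∨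
  ((((q.2.2.1, q.2.2.1) ∈ q.2.1 ∧ (q.2.2.2, q.2.2.2) ∈ q.2.1) ∧
    Nat.pair q.2.2.1 q.2.2.2 ∈ W q.1) ∨
  ((q.2.2.2, q.2.2.1) ∈ q.2.1 ∨ ∃ c, (q.2.2.1, c) ∈ q.2.1 ∧ (c, q.2.2.2) ∈ q.2.1))))

theorem mem_prim : PrimrecPred fun q : (ℕ × ℕ) × List (ℕ × ℕ) => q.1 ∈ q.2 := by
  have h5 : PrimrecRel fun (l : List (ℕ × ℕ)) (y : ℕ × ℕ) => ∃ a ∈ l, a = y :=
    PrimrecRel.exists_mem_list (R := fun a b : ℕ × ℕ => a = b) Primrec.eq
  exact (PrimrecPred.comp (f := fun q : (ℕ × ℕ) × List (ℕ × ℕ) => (q.2, q.1)) h5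
    (Primrec.pair Primrec.snd Primrec.fst)).of_eq fun q => by simp

theorem rule_re : REPred rule := by
  have a1 : Primrec fun q : ℕ × (List (ℕ × ℕ) × (ℕ × ℕ)) => q.2.2.1 :=
    Primrec.fst.comp (Primrec.snd.comp Primrec.snd)
  have a2 : Primrec fun q : ℕ × (List (ℕ × ℕ) × (ℕ × ℕ)) => q.2.2.2 :=
    Primrec.snd.comp (Primrec.snd.comp Primrec.snd)
  have a3 : Primrec fun q : ℕ × (List (ℕ × ℕ) × (ℕ × ℕ)) => q.2.1 :=
    Primrec.fst.comp Primrec.snd
  have b1 : Primrec fun q : (ℕ × (List (ℕ × ℕ) × (ℕ × ℕ))) × ℕ => q.2.unpair.1 :=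
    Primrec.fst.comp (Primrec.unpair.comp Primrec.snd)
  have b2 : Primrec fun q : (ℕ × (List (ℕ × ℕ) × (ℕ × ℕ))) × ℕ => q.2.unpair.2 :=
    Primrec.snd.comp (Primrec.unpair.comp Primrec.snd)
  have b3 : Primrec fun q : (ℕ × (List (ℕ × ℕ) × (ℕ × ℕ))) × ℕ => q.2.unpair.2.unpair.1 :=
    Primrec.fst.comp (Primrec.unpair.comp b2)
  have b4 : Primrec fun q : (ℕ × (List (ℕ × ℕ) × (ℕ × ℕ))) × ℕ => q.2.unpair.2.unpair.2 :=
    Primrec.snd.comp (Primrec.unpair.comp b2)
  refine or (and ?_ ?_) (or ?_ (or ?_ (or (and (and ?_ ?_) ?_) (or ?_ ?_))))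
  · exact of_prim (Primrec.eq.comp a1 (Primrec.const 0))
  · exact of_prim (Primrec.eq.comp a2 (Primrec.const 0))
  · refine ex (p := fun q : (ℕ × (List (ℕ × ℕ) × (ℕ × ℕ))) × ℕ => q.2.unpair.1 < 2 ∧
      q.1.2.2.1 = cs q.2.unpair.1 q.2.unpair.2.unpair.1 ∧
      q.1.2.2.2 = cs q.2.unpair.1 q.2.unpair.2.unpair.2 ∧
      (q.2.unpair.2.unpair.1, q.2.unpair.2.unpair.2) ∈ q.1.2.1) ?_
    refine and ?_ (and ?_ (and ?_ ?_))
    · exact of_prim (Primrec.nat_lt.comp b1 (Primrec.const 2))
    · exact of_prim (Primrec.eq.comp (a1.comp Primrec.fst) (cs_prim.comp b1 b3))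
    · exact of_prim (Primrec.eq.comp (a2.comp Primrec.fst) (cs_prim.comp b1 b4))
    · exact of_prim (mem_prim.comp (f := fun q : (ℕ × (List (ℕ × ℕ) × (ℕ × ℕ))) × ℕ =>
        ((q.2.unpair.2.unpair.1, q.2.unpair.2.unpair.2), q.1.2.1))
        ((b3.pair b4).pair (a3.comp Primrec.fst)))
  · refine ex (p := fun q : (ℕ × (List (ℕ × ℕ) × (ℕ × ℕ))) × ℕ =>
      (q.2.unpair.1 < 2 ∧ (q.2.unpair.2, q.2.unpair.2) ∈ q.1.2.1) ∧
      q.1.2.2.1 = cs q.2.unpair.1 (cs 1 q.2.unpair.2) ∧ q.1.2.2.2 = cs 1 q.2.unpair.2) ?_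
    refine and (and ?_ ?_) (and ?_ ?_)
    · exact of_prim (Primrec.nat_lt.comp b1 (Primrec.const 2))
    · exact of_prim (mem_prim.comp (f := fun q : (ℕ × (List (ℕ × ℕ) × (ℕ × ℕ))) × ℕ =>
        ((q.2.unpair.2, q.2.unpair.2), q.1.2.1))
        ((b2.pair b2).pair (a3.comp Primrec.fst)))
    · exact of_prim (Primrec.eq.comp (a1.comp Primrec.fst)
        (cs_prim.comp b1 (cs_prim.comp (Primrec.const 1) b2)))
    · exact of_prim (Primrec.eq.comp (a2.comp Primrec.fst) (cs_prim.comp (Primrec.const 1) b2))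
  · exact of_prim (mem_prim.comp (f := fun q : ℕ × (List (ℕ × ℕ) × (ℕ × ℕ)) =>
      ((q.2.2.1, q.2.2.1), q.2.1)) ((a1.pair a1).pair a3))
  · exact of_prim (mem_prim.comp (f := fun q : ℕ × (List (ℕ × ℕ) × (ℕ × ℕ)) =>
      ((q.2.2.2, q.2.2.2), q.2.1)) ((a2.pair a2).pair a3))
  · exact comp re_W (f := fun q : ℕ × (List (ℕ × ℕ) × (ℕ × ℕ)) =>
      (q.1, Nat.pair q.2.2.1 q.2.2.2))
      (Primrec.to_comp (Primrec.fst.pair (Primrec₂.natPair.comp a1 a2)))
  · exact of_prim (mem_prim.comp (f := fun q : ℕ × (List (ℕ × ℕ) × (ℕ × ℕ)) =>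
      ((q.2.2.2, q.2.2.1), q.2.1)) ((a2.pair a1).pair a3))
  · refine ex (p := fun q : (ℕ × (List (ℕ × ℕ) × (ℕ × ℕ))) × ℕ =>
      (q.1.2.2.1, q.2) ∈ q.1.2.1 ∧ (q.2, q.1.2.2.2) ∈ q.1.2.1) (and ?_ ?_)
    · exact of_prim (mem_prim.comp (f := fun q : (ℕ × (List (ℕ × ℕ) × (ℕ × ℕ))) × ℕ =>
        ((q.1.2.2.1, q.2), q.1.2.1)) (((a1.comp Primrec.fst).pair Primrec.snd).pair
          (a3.comp Primrec.fst)))
    · exact of_prim (mem_prim.comp (f := fun q : (ℕ × (List (ℕ × ℕ) × (ℕ × ℕ))) × ℕ =>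
        ((q.2, q.1.2.2.2), q.1.2.1)) ((Primrec.snd.pair (a2.comp Primrec.fst)).pair
          (a3.comp Primrec.fst)))

theorem der_sound {e : ℕ} {y : ℕ × ℕ} (h : Der (fun l x => rule (e, l, x)) y) :
    ∃ s t : T, cd s = y.1 ∧ cd t = y.2 ∧ θ e s t := by
  induction h with
  | mk l y hR hl ih =>
    obtain ⟨a, b⟩ := y
    rcases hR with h | h | h | h | h | h
    · obtain ⟨h1, h2⟩ := h
      exact ⟨x, x, h1.symm, h2.symm, θrefl e x⟩
    · obtain ⟨m, hm, h1, h2, h3⟩ := h
      obtain ⟨s, t, hs, ht, hst⟩ := ih _ h3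
      simp only at hs ht h1 h2
      generalize m.unpair.1 = f at *
      interval_cases f
      · exact ⟨opS s, opS t, by rw [cd_S, hs, h1], by rw [cd_S, ht, h2], θS hst⟩
      · exact ⟨opT s, opT t, by rw [cd_T, hs, h1], by rw [cd_T, ht, h2], θT hst⟩
    · obtain ⟨m, ⟨hm, h3⟩, h1, h2⟩ := h
      obtain ⟨s, t, hs, ht, hst⟩ := ih _ h3
      simp only at hs ht h1 h2
      generalize m.unpair.1 = f at *
      interval_cases f
      · exact ⟨opS (opT s), opT s, by rw [cd_S, cd_T, hs, h1], by rw [cd_T, hs, h2], θST e s⟩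
      · exact ⟨opT (opT s), opT s, by rw [cd_T, cd_T, hs, h1], by rw [cd_T, hs, h2], θTT e s⟩
    · obtain ⟨⟨h1, h2⟩, h3⟩ := h
      obtain ⟨s, -, hs, -, -⟩ := ih _ h1
      obtain ⟨t, -, ht, -, -⟩ := ih _ h2
      refine ⟨s, t, hs, ht, Cong.rel ?_⟩
      show Nat.pair (cd s) (cd t) ∈ W e
      rw [hs, ht]
      exact h3
    · obtain ⟨t, s, ht, hs, h5⟩ := ih _ h
      exact ⟨s, t, hs, ht, h5.symm⟩
    · obtain ⟨c, h1, h2⟩ := h
      obtain ⟨s, u, hs, hu, h5⟩ := ih _ h1
      obtain ⟨u', t, hu', ht, h6⟩ := ih _ h2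
      have e3 : u = u' := cd_inj2 _ _ (by rw [hu, hu'])
      subst e3
      exact ⟨s, t, hs, ht, h5.trans h6⟩

theorem der_refl (e : ℕ) (t : T) : Der (fun l x => rule (e, l, x)) (cd t, cd t) := by
  refine term_ind (p := fun t : T => Der (fun l x => rule (e, l, x)) (cd t, cd t)) ?_ ?_ ?_ t
  · intro i
    rw [var_eq i]
    exact Der.mk [] _ (Or.inl ⟨rfl, rfl⟩) (by simp)
  · intro t ih
    refine Der.mk [(cd t, cd t)] _ (Or.inr (Or.inl ⟨Nat.pair 0 (Nat.pair (cd t) (cd t)),
      ?_⟩)) (by simpa using ih)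
    simp only [Nat.unpair_pair]
    exact ⟨by norm_num, rfl, rfl, by simp⟩
  · intro t ih
    refine Der.mk [(cd t, cd t)] _ (Or.inr (Or.inl ⟨Nat.pair 1 (Nat.pair (cd t) (cd t)),
      ?_⟩)) (by simpa using ih)
    simp only [Nat.unpair_pair]
    exact ⟨by norm_num, rfl, rfl, by simp⟩

theorem der_complete {e : ℕ} {s t : Term VT.sig (Fin 1)} (h : Cong VT (relOf (W e)) s t) :
    Der (fun l x => rule (e, l, x)) (cd s, cd t) := by
  induction h with
  | @rel s t h =>
    refine Der.mk [(cd s, cd s), (cd t, cd t)] _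
      (Or.inr (Or.inr (Or.inr (Or.inl ⟨⟨by simp, by simp⟩, h⟩)))) ?_
    intro y hy
    simp only [List.mem_cons, List.not_mem_nil, or_false] at hy
    rcases hy with rfl | rfl
    · exact der_refl e s
    · exact der_refl e t
  | @law l hl ρ =>
    have hl : l = (opS (opT (.var 0)), opT (.var 0)) ∨
      l = (opT (opT (.var 0)), opT (.var 0)) := hl
    rcases hl with rfl | rfl
    · refine Der.mk [(cd (ρ 0), cd (ρ 0))] _ (Or.inr (Or.inr (Or.inl
        ⟨Nat.pair 0 (cd (ρ 0)), ?_⟩))) (by simpa using der_refl e (ρ 0))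
      simp only [Nat.unpair_pair]
      exact ⟨⟨by norm_num, by simp⟩, by trivial, by trivial⟩
    · refine Der.mk [(cd (ρ 0), cd (ρ 0))] _ (Or.inr (Or.inr (Or.inl
        ⟨Nat.pair 1 (cd (ρ 0)), ?_⟩))) (by simpa using der_refl e (ρ 0))
      simp only [Nat.unpair_pair]
      exact ⟨⟨by norm_num, by simp⟩, by trivial, by trivial⟩
  | refl t => exact der_refl e t
  | @symm s t _ ih =>
    exact Der.mk [(cd s, cd t)] _ (Or.inr (Or.inr (Or.inr (Or.inr (Or.inl (by simp))))))
      (by simpa using ih)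
  | @trans s t u _ _ ih1 ih2 =>
    refine Der.mk [(cd s, cd t), (cd t, cd u)] _
      (Or.inr (Or.inr (Or.inr (Or.inr (Or.inr ⟨cd t, by simp⟩))))) ?_
    intro y hy
    simp only [List.mem_cons, List.not_mem_nil, or_false] at hy
    rcases hy with rfl | rfl
    · exact ih1
    · exact ih2
  | @app f hf ts us _ ih =>
    have hf' : f < 2 := hf
    have e1 : cd (Term.app f hf ts : T) = cs f (cd (ts (0 : Fin 1))) := rfl
    have e2 : cd (Term.app f hf us : T) = cs f (cd (us (0 : Fin 1))) := rfl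
    rw [e1, e2]
    refine Der.mk [(cd (ts (0 : Fin 1)), cd (us (0 : Fin 1)))] _ (Or.inr (Or.inl
      ⟨Nat.pair f (Nat.pair (cd (ts (0 : Fin 1))) (cd (us (0 : Fin 1)))), ?_⟩))
      (by simpa using ih (0 : Fin 1))
    simp only [Nat.unpair_pair]
    exact ⟨hf', trivial, trivial, by simp⟩

/-- a computable map sending `e` to an index for its congruence -/
theorem exists_theta : ∃ f : ℕ → ℕ, Computable f ∧
    ∀ e i, ceEq (f e) (f i) ↔ ∀ s t, θ e s t ↔ θ i s t := by
  have h1 : REPred fun q : ℕ × ℕ =>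
      Der (fun l x => rule (q.1, l, x)) (q.2.unpair.1, q.2.unpair.2) :=
    comp (re_der rule_re) (f := fun q : ℕ × ℕ => (q.1, (q.2.unpair.1, q.2.unpair.2)))
      (Primrec.to_comp (Primrec.fst.pair (Primrec.unpair.comp Primrec.snd)))
  obtain ⟨f, hf, hf2⟩ := exists_smn h1
  refine ⟨f, hf, fun e i => ?_⟩
  have h2 : ∀ e (s t : T), Nat.pair (cd s) (cd t) ∈ W (f e) ↔ θ e s t := by
    intro e s t
    rw [hf2]
    simp only [Nat.unpair_pair]
    constructor
    · intro h
      obtain ⟨s', t', hs, ht, hst⟩ := der_sound h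
      rw [cd_inj2 _ _ hs, cd_inj2 _ _ ht] at hst
      exact hst
    · exact der_complete
  constructor
  · intro h s t
    have h : W (f e) = W (f i) := h
    rw [← h2, ← h2, h]
  · intro h
    show W (f e) = W (f i)
    ext z
    rw [hf2, hf2]
    constructor
    · intro h3
      obtain ⟨s, t, hs, ht, hst⟩ := der_sound h3
      simp only at hs ht ⊢
      rw [← hs, ← ht]
      exact der_complete ((h s t).1 hst)
    · intro h3
      obtain ⟨s, t, hs, ht, hst⟩ := der_sound h3
      simp only at hs ht ⊢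
      rw [← hs, ← ht]
      exact der_complete ((h s t).2 hst)

/-! ### Isomorphism classes -/

/-- the `n`-th iterate of `s` -/
def sp : ℕ → T → T
  | 0, t => t
  | n + 1, t => opS (sp n t)

theorem sp_add (m n : ℕ) (t : T) : sp (m + n) t = sp m (sp n t) := by
  induction m with
  | zero => simp [sp]
  | succ m ih =>
    have : m + 1 + n = (m + n) + 1 := by omega
    rw [this]
    show (opS (sp (m + n) t) : T) = opS (sp m (sp n t))
    rw [ih]

theorem θsp {e : ℕ} (n : ℕ) {s t : T} (h : θ e s t) : θ e (sp n s) (sp n t) := by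
  induction n with
  | zero => exact h
  | succ n ih => exact θS ih

/-- substitution of `g` for the generator -/
abbrev sub (g : T) (t : T) : T := t.subst fun _ => g

theorem sub_x (g : T) : sub g x = g := rfl

theorem sub_S (g t : T) : sub g (opS t : T) = (opS (sub g t) : T) := rfl

theorem sub_T (g t : T) : sub g (opT t : T) = (opT (sub g t) : T) := rfl

theorem sub_sp (g : T) (n : ℕ) (t : T) : sub g (sp n t) = sp n (sub g t) := by
  induction n with
  | zero => rfl
  | succ n ih =>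
    show (opS (sub g (sp n t)) : T) = opS (sp n (sub g t))
    rw [ih]

/-- every term is equal to `sⁿ x` or `t sⁿ x` -/
theorem normal (e : ℕ) (g : T) (t : T) :
    ∃ n, θ e (sub g t) (sp n g) ∨ θ e (sub g t) (opT (sp n g) : T) := by
  refine term_ind (p := fun t : T => ∃ n, θ e (sub g t) (sp n g) ∨
    θ e (sub g t) (opT (sp n g) : T)) ?_ ?_ ?_ t
  · intro i; exact ⟨0, Or.inl (Cong.refl _)⟩
  · rintro t ⟨n, h | h⟩
    · exact ⟨n + 1, Or.inl (θS h)⟩
    · exact ⟨n, Or.inr ((θS h).trans (θST e _))⟩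
  · rintro t ⟨n, h | h⟩
    · exact ⟨n, Or.inr (θT h)⟩
    · exact ⟨n, Or.inr ((θT h).trans (θTT e _))⟩

theorem sub_self (t : T) : sub x t = t := by
  refine term_ind (p := fun t : T => sub x t = t) ?_ ?_ ?_ t
  · intro i; exact (var_eq i).symm
  · intro t ih
    show (opS (sub x t) : T) = opS t
    rw [ih]
  · intro t ih
    show (opT (sub x t) : T) = opT t
    rw [ih]

theorem sub_sub (g h t : T) : sub g (sub h t) = sub (sub g h) t := by
  refine term_ind (p := fun t : T => sub g (sub h t) = sub (sub g h) t) ?_ ?_ ?_ t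
  · intro i; rfl
  · intro t ih
    show (opS (sub g (sub h t)) : T) = opS (sub (sub g h) t)
    rw [ih]
  · intro t ih
    show (opT (sub g (sub h t)) : T) = opT (sub (sub g h) t)
    rw [ih]

theorem θsub {e : ℕ} {g h : T} (hgh : θ e g h) (t : T) : θ e (sub g t) (sub h t) := by
  refine term_ind (p := fun t : T => θ e (sub g t) (sub h t)) ?_ ?_ ?_ t
  · intro i; exact hgh
  · intro t ih; exact θS ih
  · intro t ih; exact θT ih

/-- the underlying set of the algebra presented by `e` -/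
abbrev K (e : ℕ) := (present VT (X := Fin 1) (relOf (W e))).carrier

/-- the class of a term -/
abbrev cl (e : ℕ) (t : T) : K e := cls (relOf (W e)) t

/-- `g` generates the algebra -/
def Gen (e : ℕ) (g : T) : Prop := ∃ h, θ e (sub g h) x

theorem opS_cl (e : ℕ) (t : T) :
    (present VT (X := Fin 1) (relOf (W e))).op 0 (show (0 : ℕ) < 2 by norm_num)
      (fun _ => cl e t) = cl e (opS t : T) :=
  op_cls (V := VT) (R := relOf (W e)) 0 (show (0 : ℕ) < 2 by norm_num) fun _ => t

theorem opT_cl (e : ℕ) (t : T) :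
    (present VT (X := Fin 1) (relOf (W e))).op 1 (show (1 : ℕ) < 2 by norm_num)
      (fun _ => cl e t) = cl e (opT t : T) :=
  op_cls (V := VT) (R := relOf (W e)) 1 (show (1 : ℕ) < 2 by norm_num) fun _ => t

/-- an isomorphism is given by a generator -/
theorem iso_gen {e e' : ℕ} (h : isoRel VT 1 e e') :
    ∃ g, Gen e' g ∧ ∀ s t, θ e s t ↔ θ e' (sub g s) (sub g t) := by
  obtain ⟨φ, hφ⟩ := h
  obtain ⟨g, hg⟩ := cls_surj (φ (cl e x))
  have h1 : ∀ t : T, φ (cl e t) = cl e' (sub g t) := by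
    intro t
    refine term_ind (p := fun t : T => φ (cl e t) = cl e' (sub g t)) ?_ ?_ ?_ t
    · intro i
      have : (.var i : T) = x := var_eq i
      show φ (cl e (.var i : T)) = _
      rw [this]
      exact hg.symm
    · intro t ih
      have h2 := hφ 0 (show (0 : ℕ) < 2 by norm_num) (fun _ => cl e t)
      change φ ((present VT (X := Fin 1) (relOf (W e))).op 0 _ (fun _ => cl e t)) =
        (present VT (X := Fin 1) (relOf (W e'))).op 0 _ (fun _ => φ (cl e t)) at h2
      rw [opS_cl, ih, opS_cl] at h2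
      exact h2
    · intro t ih
      have h2 := hφ 1 (show (1 : ℕ) < 2 by norm_num) (fun _ => cl e t)
      change φ ((present VT (X := Fin 1) (relOf (W e))).op 1 _ (fun _ => cl e t)) =
        (present VT (X := Fin 1) (relOf (W e'))).op 1 _ (fun _ => φ (cl e t)) at h2
      rw [opT_cl, ih, opT_cl] at h2
      exact h2
  refine ⟨g, ?_, fun s t => ?_⟩
  · obtain ⟨t, ht⟩ := cls_surj (φ.symm (cl e' x))
    have h3 : φ (cl e t) = cl e' x := by
      show φ (cls _ t) = _
      rw [ht]; exact φ.apply_symm_apply _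
    rw [h1] at h3
    exact ⟨t, cls_eq.1 h3⟩
  · have h4 : φ (cl e s) = φ (cl e t) ↔ cl e s = cl e t := φ.injective.eq_iff
    rw [h1, h1] at h4
    exact cls_eq.symm.trans (h4.symm.trans cls_eq)

theorem iso_of_eq {e e' : ℕ} (h : ∀ s t, θ e s t ↔ θ e' s t) : isoRel VT 1 e e' :=
  iso_of_cong (fun s t hst => (h s t).1 (Cong.rel hst)) fun s t hst => (h s t).2 (Cong.rel hst)

/-- the generators form a finite set of elements -/
theorem gen_finite (e : ℕ) : {a : K e | ∃ g, Gen e g ∧ cl e g = a}.Finite := by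
  by_cases hx : ∀ g, Gen e g → θ e g x
  · refine (Set.finite_singleton (cl e x)).subset ?_
    rintro _ ⟨g, hg, rfl⟩
    exact cls_eq.2 (hx g hg)
  · push Not at hx
    obtain ⟨g, ⟨h, hh⟩, hgx⟩ := hx
    -- if `x` is a fixed point, everything is equal to `x`
    have fixed : ∀ y : T, θ e x (opT y : T) → False := by
      intro y hy
      apply hgx
      have hS : θ e (opS x : T) x := (θS hy).trans ((θST e y).trans hy.symm)
      have hT : θ e (opT x : T) x := (θT hy).trans ((θTT e y).trans hy.symm)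
      refine term_ind (p := fun g : T => θ e g x) ?_ ?_ ?_ g
      · intro i; rw [var_eq i]; exact θrefl e x
      · intro t ih; exact (θS ih).trans hS
      · intro t ih; exact (θT ih).trans hT
    obtain ⟨n, hn | hn⟩ := normal e x g
    swap
    · exfalso
      rw [sub_self] at hn
      obtain ⟨m, hm | hm⟩ := normal e g h
      · -- `g` is a fixed point of `s`
        have h1 : ∀ m, θ e (sp m g) g := by
          intro m
          induction m with
          | zero => exact Cong.refl _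
          | succ m ih => exact (θS ih).trans ((θS hn).trans ((θST e _).trans hn.symm))
        exact fixed _ (hh.symm.trans (hm.trans ((h1 m).trans hn)))
      · exact fixed _ (hh.symm.trans hm)
    rw [sub_self] at hn
    obtain ⟨m, hm | hm⟩ := normal e g h
    swap
    · exact absurd (hh.symm.trans hm) (fixed _)
    have hper : θ e (sp (m + n) x) x := by
      rw [sp_add]
      exact (θsp m hn.symm).trans (hm.symm.trans hh)
    have hpos : 0 < m + n := by
      by_contra h0
      have : n = 0 := by omega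
      subst this
      exact hgx hn
    set N := m + n with hN
    have hmod : ∀ i, ∃ j < N, θ e (sp i x) (sp j x) := by
      intro i
      induction i with
      | zero => exact ⟨0, hpos, Cong.refl _⟩
      | succ i ih =>
        obtain ⟨j, hj, hij⟩ := ih
        by_cases hj1 : j + 1 < N
        · exact ⟨j + 1, hj1, θS hij⟩
        · have : j + 1 = N := by omega
          refine ⟨0, hpos, (θS hij).trans ?_⟩
          show θ e (sp (j + 1) x) x
          rw [this]; exact hper
    have hfin : (Set.range (cl e)).Finite := by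
      refine (((Set.finite_lt_nat N).image fun j => cl e (sp j x)).union
        ((Set.finite_lt_nat N).image fun j => cl e (opT (sp j x) : T))).subset ?_
      rintro _ ⟨t, rfl⟩
      obtain ⟨i, hi | hi⟩ := normal e x t
      · rw [sub_self] at hi
        obtain ⟨j, hj, hij⟩ := hmod i
        exact Or.inl ⟨j, hj, cls_eq.2 (hi.trans hij).symm⟩
      · rw [sub_self] at hi
        obtain ⟨j, hj, hij⟩ := hmod i
        exact Or.inr ⟨j, hj, cls_eq.2 (hi.trans (θT hij)).symm⟩
    refine hfin.subset ?_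
    rintro _ ⟨g, -, rfl⟩
    exact ⟨g, rfl⟩

/-- each isomorphism class is a finite union of classes of presentations with the same
congruence -/
theorem class_finite (e' : ℕ) : ∃ I : List ℕ, ∀ e, isoRel VT 1 e e' ↔
    ∃ i ∈ I, ∀ s t, θ e s t ↔ θ i s t := by
  classical
  have hfin := gen_finite e'
  -- choose an index for each generator
  have hsel : ∀ a : K e', ∃ i : ℕ, (∃ e g, isoRel VT 1 e e' ∧ cl e' g = a ∧
      ∀ s t, θ e s t ↔ θ e' (sub g s) (sub g t)) →
      (isoRel VT 1 i e' ∧ ∃ g, cl e' g = a ∧ ∀ s t, θ i s t ↔ θ e' (sub g s) (sub g t)) := by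
    intro a
    by_cases h : ∃ e g, isoRel VT 1 e e' ∧ cl e' g = a ∧
      ∀ s t, θ e s t ↔ θ e' (sub g s) (sub g t)
    · obtain ⟨e, g, h1, h2, h3⟩ := h
      exact ⟨e, fun _ => ⟨h1, g, h2, h3⟩⟩
    · exact ⟨0, fun h' => absurd h' h⟩
  choose r hr using hsel
  have hfin2 : {i | ∃ a ∈ {a : K e' | ∃ g, Gen e' g ∧ cl e' g = a}, i = r a ∧
      isoRel VT 1 (r a) e'}.Finite := by
    refine (hfin.image r).subset ?_
    rintro i ⟨a, ha, hi, -⟩
    exact ⟨a, ha, hi.symm⟩
  refine ⟨hfin2.toFinset.toList, fun e => ⟨fun h => ?_, ?_⟩⟩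
  · obtain ⟨g, hg, hg2⟩ := iso_gen h
    obtain ⟨h1, g', h2, h3⟩ := hr (cl e' g) ⟨e, g, h, rfl, hg2⟩
    refine ⟨r (cl e' g), ?_, fun s t => ?_⟩
    · rw [Finset.mem_toList, Set.Finite.mem_toFinset]
      exact ⟨cl e' g, ⟨g, hg, rfl⟩, rfl, h1⟩
    · rw [hg2, h3]
      have hgg : θ e' g g' := (cls_eq.1 h2).symm
      have h4 := θsub hgg
      exact ⟨fun h5 => (h4 s).symm.trans (h5.trans (h4 t)),
        fun h5 => (h4 s).trans (h5.trans (h4 t).symm)⟩
  · rintro ⟨i, hi, h⟩
    rw [Finset.mem_toList, Set.Finite.mem_toFinset] at hi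
    obtain ⟨a, -, rfl, h1⟩ := hi
    exact (iso_of_eq h).trans h1

theorem not_complete : ¬ Sigma3Complete (isoRel VT 1) := by
  rintro ⟨-, -, hc⟩
  obtain ⟨h, hh, hr⟩ := hc ceEq0 ceEq0_equivalence sigma3_ceEq0
  obtain ⟨e0, he0⟩ := exists_index (const (α := ℕ) False)
  have h0 : W e0 = ∅ := by ext y; simp [he0]
  obtain ⟨f, hf, hf2⟩ := exists_theta
  obtain ⟨I, hI⟩ := class_finite (h e0)
  refine ceEq0_not_finite_union (h := fun y => f (h y)) (hf.comp hh) (I.map f) h0 fun y => ?_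
  rw [hr, hI]
  constructor
  · rintro ⟨i, hi, h1⟩
    exact ⟨f i, List.mem_map.2 ⟨i, hi, rfl⟩, (hf2 _ _).2 h1⟩
  · rintro ⟨j, hj, h1⟩
    obtain ⟨i, hi, rfl⟩ := List.mem_map.1 hj
    exact ⟨i, hi, (hf2 _ _).1 h1⟩

/-! ### Failure of ACC -/

/-- the map collapsing the first `k + 1` fixed points -/
def gk (k i : ℕ) : ℕ := if i ≤ k then 0 else i

/-- the operations of the model -/
def mop (k f : ℕ) (a : ℕ × Bool) : ℕ × Bool :=
  if a.2 then a else if f = 0 then (a.1 + 1, false) else (gk k a.1, true)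

/-- the model -/
def model (k : ℕ) : Alg VT.sig where
  carrier := ℕ × Bool
  op f _ a := mop k f (a (0 : Fin 1))

theorem model_mem (k : ℕ) : VT.Mem (model k) := by
  intro l hl ρ
  have hl : l = (opS (opT (.var 0)), opT (.var 0)) ∨
    l = (opT (opT (.var 0)), opT (.var 0)) := hl
  rcases hl with rfl | rfl
  · show mop k 0 (mop k 1 (ρ 0)) = mop k 1 (ρ 0)
    generalize ρ 0 = a
    obtain ⟨i, b⟩ := (a : ℕ × Bool)
    cases b <;> simp [mop]
  · show mop k 1 (mop k 1 (ρ 0)) = mop k 1 (ρ 0)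
    generalize ρ 0 = a
    obtain ⟨i, b⟩ := (a : ℕ × Bool)
    cases b <;> simp [mop]

/-- evaluation in the model -/
def ev (k : ℕ) (t : T) : ℕ × Bool := t.eval (model k) fun _ => (0, false)

theorem ev_S (k : ℕ) (t : T) : ev k (opS t : T) = mop k 0 (ev k t) := rfl

theorem ev_T (k : ℕ) (t : T) : ev k (opT t : T) = mop k 1 (ev k t) := rfl

theorem ev_x (k : ℕ) : ev k x = (0, false) := rfl

/-- the quotient map between models -/
def pr (k : ℕ) (a : ℕ × Bool) : ℕ × Bool := if a.2 then (gk k a.1, true) else a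

theorem ev_pr {k m : ℕ} (h : k ≤ m) (t : T) : ev m t = pr m (ev k t) := by
  refine term_ind (p := fun t : T => ev m t = pr m (ev k t)) ?_ ?_ ?_ t
  · intro i; rw [var_eq i]; rfl
  · intro t ih
    rw [ev_S, ev_S, ih]
    obtain ⟨i, b⟩ := ev k t
    cases b <;> simp [mop, pr]
  · intro t ih
    rw [ev_T, ev_T, ih]
    obtain ⟨i, b⟩ := ev k t
    cases b
    · simp only [mop, pr, gk, Bool.false_eq_true, if_false, if_true, one_ne_zero]
      by_cases h1 : i ≤ k
      · have h2 : i ≤ m := h1.trans h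
        simp [h1, h2]
      · simp [h1]
    · simp [mop, pr]

theorem ev_sp (k n : ℕ) : ev k (sp n x) = (n, false) := by
  induction n with
  | zero => rfl
  | succ n ih =>
    show ev k (opS (sp n x) : T) = _
    rw [ev_S, ih]
    simp [mop]

theorem not_acc : ¬ ClassACC VT 1 := by
  intro hacc
  obtain ⟨e0, he0⟩ := exists_index (const (α := ℕ) False)
  have sound : ∀ k (s t : T), θ e0 s t → ev k s = ev k t := by
    intro k s t h
    refine Cong.sound (V := VT) (R := relOf (W e0)) (model k) (model_mem k)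
      (fun _ => (0, false)) ?_ h
    intro s t hst
    exact absurd ((he0 _).1 hst) not_false
  have hev : ∀ k, ∃ v : K e0 → ℕ × Bool, ∀ t, v (cl e0 t) = ev k t := fun k =>
    ⟨Quotient.lift (ev k) fun s t h => sound k s t h, fun t => rfl⟩
  choose v hv using hev
  have hcong : ∀ k, IsCongr (present VT (X := Fin 1) (relOf (W e0))) (Setoid.ker (v k)) := by
    intro k f hf a b hab
    have hf' : f < 2 := hf
    have hab0 : v k (a (0 : Fin 1)) = v k (b (0 : Fin 1)) := hab (0 : Fin 1)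
    obtain ⟨s, hs⟩ := cls_surj (a (0 : Fin 1))
    obtain ⟨t, ht⟩ := cls_surj (b (0 : Fin 1))
    have ha : a = fun _ => cl e0 s := by
      funext i
      have : i = (0 : Fin 1) := Subsingleton.elim (α := Fin 1) _ _
      rw [this, ← hs]
    have hb : b = fun _ => cl e0 t := by
      funext i
      have : i = (0 : Fin 1) := Subsingleton.elim (α := Fin 1) _ _
      rw [this, ← ht]
    have hst : ev k s = ev k t := by
      rw [← hv, ← hv]
      show v k (cls _ s) = v k (cls _ t)
      rw [hs, ht]; exact hab0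
    show v k _ = v k _
    subst ha hb
    interval_cases f
    · have e1 := opS_cl e0 s
      have e2 := opS_cl e0 t
      calc v k _ = v k (cl e0 (opS s : T)) := congrArg (v k) e1
        _ = v k (cl e0 (opS t : T)) := by rw [hv, hv, ev_S, ev_S, hst]
        _ = _ := (congrArg (v k) e2).symm
    · have e1 := opT_cl e0 s
      have e2 := opT_cl e0 t
      calc v k _ = v k (cl e0 (opT s : T)) := congrArg (v k) e1
        _ = v k (cl e0 (opT t : T)) := by rw [hv, hv, ev_T, ev_T, hst]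
        _ = _ := (congrArg (v k) e2).symm
  have hmono : Monotone fun k => Setoid.ker (v k) := by
    intro k m hkm a b hab
    have hab : v k a = v k b := hab
    show v m a = v m b
    obtain ⟨s, rfl⟩ := cls_surj a
    obtain ⟨t, rfl⟩ := cls_surj b
    have hab : v k (cl e0 s) = v k (cl e0 t) := hab
    show v m (cl e0 s) = v m (cl e0 t)
    rw [hv, hv] at hab ⊢
    rw [ev_pr hkm, ev_pr hkm, hab]
  obtain ⟨N, hN⟩ := hacc e0 (fun k => Setoid.ker (v k)) hcong hmono
  have h1 := hN (N + 1) (by omega)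
  have h2 : (Setoid.ker (v (N + 1))) (cl e0 (opT (sp (N + 1) x) : T)) (cl e0 (opT x : T)) := by
    show v (N + 1) _ = v (N + 1) _
    rw [hv, hv, ev_T, ev_T, ev_sp, ev_x]
    simp [mop, gk]
  have h3 : v N (cl e0 (opT (sp (N + 1) x) : T)) = v N (cl e0 (opT x : T)) :=
    (Setoid.ext_iff.1 h1 _ _).1 h2
  rw [hv, hv, ev_T, ev_T, ev_sp, ev_x] at h3
  simp [mop, gk] at h3

theorem ce_laws : CELaws VT := by
  have h : REPred fun m : ℕ =>
      m = Nat.pair (Term.code (fun i : ℕ => i) (opS (opT (.var 0)) : Term sg ℕ))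
        (Term.code (fun i : ℕ => i) (opT (.var 0) : Term sg ℕ)) ∨
      m = Nat.pair (Term.code (fun i : ℕ => i) (opT (opT (.var 0)) : Term sg ℕ))
        (Term.code (fun i : ℕ => i) (opT (.var 0) : Term sg ℕ)) :=
    or (of_prim (Primrec.eq.comp Primrec.id (Primrec.const _)))
      (of_prim (Primrec.eq.comp Primrec.id (Primrec.const _)))
  refine h.of_eq fun m => ?_
  constructor
  · rintro (h | h)
    · exact ⟨_, Or.inl rfl, h⟩
    · exact ⟨_, Or.inr rfl, h⟩
  · rintro ⟨l, hl, h⟩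
    have hl : l = (opS (opT (.var 0)), opT (.var 0)) ∨
      l = (opT (opT (.var 0)), opT (.var 0)) := hl
    rcases hl with rfl | rfl
    · exact Or.inl h
    · exact Or.inr h

/-- There is a variety over a finite signature, with finitely many laws, such that the class of
its one-generated c.e. algebras fails ACC, and its isomorphism relation is not
`Σ⁰₃`-complete. -/
theorem result : ∃ V : Variety, V.sig.sym.Finite ∧ V.laws.Finite ∧ CELaws V ∧
    ¬ ClassACC V 1 ∧ ¬ Sigma3Complete (isoRel V 1) := by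
  refine ⟨VT, ?_, ?_, ce_laws, not_acc, not_complete⟩
  · exact Set.finite_lt_nat 2
  · exact (Set.finite_singleton _).insert _

end Pool.Agent.Results.MP_aec1d5_lc.TwoUnary
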